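import Pool.Agent.N870.EC.Stm2
import Pool.Agent.N704.EC.Fam4L
import Pool.Agent.Y73.Z8.Low

/-!
# EC/FAM8: coprime pairs give curves with `Z/2 x Z/8`, by height

Project EC (helper870); this part by helper803.
-/

set_option autoImplicit false

namespace Pool.Agent.N803.EC

open Finset

open scoped Classical

open Pool.Agent.W307.RT (Cv)
open Pool.Agent.N870.EC (cM M8 N8)
open Pool.Agent.N704.EC (cd fam4)
open Pool.Agent.Y73.Z8 (hasT8)

/-- the first number -/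
def pp (D B : ℕ) : ℕ := D * (D + 4 * B)

/-- the second number -/
def qq (D B : ℕ) : ℕ := 4 * (D + 2 * B) * B

lemma cop {D B : ℕ} (hD : D % 2 = 1) (h : D.Coprime B) : (pp D B).Coprime (qq D B) := by
  have h2 : ∀ k : ℕ, (D + 2 * k).Coprime 2 := by
    intro k
    rw [Nat.coprime_two_right, Nat.odd_iff]
    omega
  have hy : ∀ k : ℕ, (D + k * B).Coprime B := by
    intro k
    rw [Nat.coprime_add_mul_right_left]
    exact h
  have e0 : D.Coprime (2 * B) :=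
    Nat.Coprime.mul_right (by have := h2 0; simpa using this) h
  have e4 : (D + 4 * B).Coprime (2 * B) :=
    Nat.Coprime.mul_right (by have := h2 (2 * B); rwa [← mul_assoc] at this) (hy 4)
  have e2 : (D + 2 * B).Coprime (2 * B) :=
    Nat.Coprime.mul_right (h2 B) (hy 2)
  have f0 : D.Coprime (D + 2 * B) := by
    rw [Nat.coprime_self_add_right]
    exact e0
  have f4 : (D + 4 * B).Coprime (D + 2 * B) := by
    have : D + 4 * B = 2 * B + (D + 2 * B) := by ring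
    rw [this, Nat.coprime_add_self_left]
    exact e2.symm
  have g : ∀ z : ℕ, z.Coprime (2 * B) → z.Coprime (D + 2 * B) → z.Coprime (qq D B) := by
    intro z h1 h3
    unfold qq
    have h4 : z.Coprime 2 := Nat.Coprime.coprime_mul_right_right h1
    have h5 : z.Coprime B := Nat.Coprime.coprime_mul_left_right h1
    rw [show 4 * (D + 2 * B) * B = 2 * 2 * (D + 2 * B) * B by ring]
    exact ((h4.mul_right h4).mul_right h3).mul_right h5
  exact Nat.Coprime.mul_left (g _ e0 f0) (g _ e4 f4)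

lemma cM_eq (D B : ℕ) : cM (M8 ((D + 2 * B : ℕ) : ℤ) B) (N8 ((D + 2 * B : ℕ) : ℤ) B) =
    cd ((pp D B ^ 2 : ℕ) : ℤ) ((qq D B ^ 2 : ℕ) : ℤ) := by
  unfold cM M8 N8 cd pp qq
  rw [Prod.mk.injEq]
  push_cast
  constructor <;> ring

lemma inj {D B D' B' : ℕ} (h1 : pp D B = pp D' B') (h2 : qq D B = qq D' B') :
    D = D' ∧ B = B' := by
  unfold pp at h1
  unfold qq at h2
  have e : ((D + 2 * B) ^ 2 + (2 * B) ^ 2) ^ 2 = ((D' + 2 * B') ^ 2 + (2 * B') ^ 2) ^ 2 := by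
    have e1 : ∀ D B : ℕ, ((D + 2 * B) ^ 2 + (2 * B) ^ 2) ^ 2 =
        (4 * (D + 2 * B) * B) ^ 2 + (D * (D + 4 * B)) ^ 2 := fun x y => by ring
    rw [e1, e1, h1, h2]
  have e2 := Nat.pow_left_injective (n := 2) (by norm_num) e
  have e3 : (D + 2 * B) ^ 2 = (D' + 2 * B') ^ 2 := by
    have e4 : ∀ x y : ℕ, 2 * (x + 2 * y) ^ 2 = ((x + 2 * y) ^ 2 + (2 * y) ^ 2) +
        (x * (x + 4 * y)) := fun x y => by ring
    have e5 := e4 D B
    have e6 := e4 D' B'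
    rw [e2, h1, ← e6] at e5
    linarith
  have e6 := Nat.pow_left_injective (n := 2) (by norm_num) e3
  have e7 : (2 * B) ^ 2 = (2 * B') ^ 2 := by
    rw [e3] at e2
    exact Nat.add_left_cancel e2
  have e8 := Nat.pow_left_injective (n := 2) (by norm_num) e7
  omega

lemma sizes {X D B : ℕ} (hD : 1 ≤ D) (hA : D + 2 * B ≤ X) (hB : 1 ≤ B) :
    1 ≤ pp D B ^ 2 ∧ pp D B ^ 2 ≤ 16 * X ^ 4 ∧ 16 ≤ qq D B ^ 2 ∧ qq D B ^ 2 ≤ 16 * X ^ 4 := by
  have h1 : pp D B ≤ X ^ 2 := by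
    calc pp D B ≤ (D + 2 * B) ^ 2 := by
          unfold pp
          nlinarith
      _ ≤ X ^ 2 := Nat.pow_le_pow_left hA 2
  have h2 : qq D B ≤ 4 * X ^ 2 := by
    unfold qq
    have : (D + 2 * B) * B ≤ X * X := Nat.mul_le_mul hA (by omega)
    calc 4 * (D + 2 * B) * B = 4 * ((D + 2 * B) * B) := by ring
      _ ≤ 4 * (X * X) := Nat.mul_le_mul_left 4 this
      _ = 4 * X ^ 2 := by ring
  have h3 : 1 ≤ pp D B := by
    unfold pp
    exact Nat.mul_pos hD (by omega)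
  have h4 : 4 ≤ qq D B := by
    unfold qq
    calc 4 = 4 * 1 * 1 := by norm_num
      _ ≤ 4 * (D + 2 * B) * B := Nat.mul_le_mul (Nat.mul_le_mul_left 4 (by omega)) hB
  refine ⟨Nat.one_le_pow _ _ h3, ?_, ?_, ?_⟩
  · calc pp D B ^ 2 ≤ (X ^ 2) ^ 2 := Nat.pow_le_pow_left h1 2
      _ = X ^ 4 := by ring
      _ ≤ 16 * X ^ 4 := by omega
  · calc 16 = 4 ^ 2 := by norm_num
      _ ≤ qq D B ^ 2 := Nat.pow_le_pow_left h4 2
  · calc qq D B ^ 2 ≤ (4 * X ^ 2) ^ 2 := Nat.pow_le_pow_left h2 2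
      _ = 16 * X ^ 4 := by ring

/-- EC/FAM8 -/
theorem t_FAM8 : Pool.Agent.N870.EC.S_FAM8 := by
  obtain ⟨K, hK⟩ := fam4
  refine ⟨K * 16 ^ 12, fun X H hH => ?_⟩
  have hH' : K * (16 * X ^ 4) ^ 12 ≤ H := by
    calc K * (16 * X ^ 4) ^ 12 = K * 16 ^ 12 * X ^ 48 := by ring
      _ ≤ H := hH
  obtain ⟨hm, hf⟩ := hK (16 * X ^ 4) H hH'
  constructor
  · intro A B hA hAX hB hBX hc h6 h3
    obtain ⟨D, rfl⟩ : ∃ D, A = D + 2 * B := ⟨A - 2 * B, by omega⟩
    have hDB : B < D := by omega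
    have hD1 : 1 ≤ D := by omega
    have hD2 : D % 2 = 1 := by omega
    have hcD : D.Coprime B := by
      rwa [Nat.coprime_add_mul_right_left] at hc
    obtain ⟨s1, s2, s3, s4⟩ := sizes hD1 hAX hB
    have hcop : (pp D B ^ 2).Coprime (qq D B ^ 2) := Nat.Coprime.pow _ _ (cop hD2 hcD)
    have hne : pp D B ^ 2 ≠ qq D B ^ 2 := by
      intro h
      rw [h, Nat.coprime_self] at hcop
      omega
    have h4 := hm (pp D B ^ 2) (qq D B ^ 2) s1 s2 (by omega) s4 hcop hne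
    rw [cM_eq]
    unfold Cv at h4 ⊢
    simp only [mem_filter] at h4 ⊢
    refine ⟨h4.1, h4.2.1, h4.2.2.1, h4.2.2.2.1, h4.2.2.2.2.1, ?_⟩
    apply hasT8 (X := ((D + 2 * B : ℕ) : ℚ)) (Y := ((2 * B : ℕ) : ℚ))
      (a := ((pp D B ^ 2 : ℕ) : ℚ)) (b := ((qq D B ^ 2 : ℕ) : ℚ))
    · unfold pp
      push_cast
      ring
    · unfold qq
      push_cast
      ring
    · simp only [cd]
      push_cast
      ring
    · simp only [cd]
      push_cast
      ring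
    · have : 0 < 2 * B := by omega
      exact_mod_cast this
    · have : 2 * B < D + 2 * B := by omega
      exact_mod_cast this
    · intro h
      apply hne
      have h5 : ((pp D B ^ 2 : ℕ) : ℚ) = ((qq D B ^ 2 : ℕ) : ℚ) := by linarith
      exact_mod_cast h5
  · intro c
    refine le_trans ?_ (hf c)
    have key : ∀ t : ℕ × ℕ, t ∈ (Icc 1 X ×ˢ Icc 1 X).filter (fun t : ℕ × ℕ =>
        t.1.Coprime t.2 ∧ t.1 % 6 = 1 ∧ 3 * t.2 < t.1 ∧ cM (M8 t.1 t.2) (N8 t.1 t.2) = c) →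
        t.1 = (t.1 - 2 * t.2) + 2 * t.2 ∧ 1 ≤ t.1 - 2 * t.2 ∧ 1 ≤ t.2 ∧ t.1 ≤ X ∧
          cM (M8 t.1 t.2) (N8 t.1 t.2) = c := by
      intro t ht
      rw [mem_filter, mem_product, mem_Icc, mem_Icc] at ht
      obtain ⟨⟨⟨a1, a2⟩, a3, a4⟩, a5, a6, a7, a8⟩ := ht
      exact ⟨by omega, by omega, a3, a2, a8⟩
    apply card_le_card_of_injOn (fun t : ℕ × ℕ =>
      (pp (t.1 - 2 * t.2) t.2 ^ 2, qq (t.1 - 2 * t.2) t.2 ^ 2))
    · intro t ht
      obtain ⟨k1, k2, k3, k4, k5⟩ := key t ht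
      obtain ⟨s1, s2, s3, s4⟩ := sizes (X := X) k2 (by rw [← k1]; exact k4) k3
      have h1 := cM_eq (t.1 - 2 * t.2) t.2
      rw [← k1, k5] at h1
      simp only [coe_filter, mem_product, mem_Icc, Set.mem_ofPred_eq]
      exact ⟨⟨⟨s1, s2⟩, by omega, s4⟩, h1.symm⟩
    · intro t ht t' ht' h
      obtain ⟨k1, k2, k3, k4, k5⟩ := key t ht
      obtain ⟨k1', k2', k3', k4', k5'⟩ := key t' ht'
      simp only [Prod.mk.injEq] at h
      obtain ⟨e1, e2⟩ := inj (Nat.pow_left_injective (n := 2) (by norm_num) h.1)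
        (Nat.pow_left_injective (n := 2) (by norm_num) h.2)
      apply Prod.ext
      · omega
      · exact e2

end Pool.Agent.N803.EC
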